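import Mathlib
import Pool.Agent.H.MP_337eac_co.MC

set_option autoImplicit false

namespace Pool.Agent.Results.MP_337eac_co.Monotone

/-- Closure under isomorphism and (not necessarily induced) subgraphs. -/
def MonotoneClass (C : ∀ n, SimpleGraph (Fin n) → Prop) : Prop :=
  ∀ (m n : ℕ) (g : Fin m → Fin n) (G : SimpleGraph (Fin m)) (H : SimpleGraph (Fin n)),
    Function.Injective g → (∀ x y, G.Adj x y → H.Adj (g x) (g y)) → C n H → C m G

/-- The number of labelled graphs on `Fin n` in the class. -/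
noncomputable def Sp (C : ∀ n, SimpleGraph (Fin n) → Prop) (n : ℕ) : ℕ := {G | C n G}.ncard

def MCFinite (s : ℕ → ℤ) : Prop :=
  ∀ m : ℕ, 1 ≤ m → ∃ r p : ℕ, 1 ≤ r ∧ 1 ≤ p ∧ ∃ α : Fin p → ℤ, ∀ n, r ≤ n →
    s (n + p) ≡ ∑ i : Fin p, α i * s (n + i) [ZMOD m]

theorem result : ∃ C : ∀ n, SimpleGraph (Fin n) → Prop,
    MonotoneClass C ∧ ¬ MCFinite fun n => Sp C n := by
  obtain ⟨C, h1, h2⟩ := Pool.Agent.H.MP_337eac_co.exists_class
  refine ⟨C, fun m n g G H a b => h1 m n g G H ⟨a, b⟩, fun h => h2 ?_⟩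
  obtain ⟨r, p, -, -, h⟩ := h 2 (by omega)
  exact ⟨r, p, h⟩

end Pool.Agent.Results.MP_337eac_co.Monotone
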